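import Mathlib
import Pool.Agent.Work.MP_783066_gt.NotSurj
import Pool.Agent.Work.MP_783066_gt.WellPt

/-!
# The smash product of orthogonal spectra is not fully homotopical

The definitions used in the statement are in `Pool/Agent/Work/MP_783066_gt/Defs.lean`.
-/

open Pool.Agent.Work.MP_783066_gt

namespace Pool.Agent.Results.MP_783066_gt.NotHomotopical

/-- There are an orthogonal spectrum `X` and a stable equivalence `f : Y → Y'` of orthogonal
spectra such that `X ∧ f : X ∧ Y → X ∧ Y'` is not a stable equivalence. Moreover, all levels of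
`X`, `Y` and `Y'` are compact Hausdorff spaces with nondegenerate base points. -/
theorem result :
    ∃ (X Y Y' Z Z' : OrthSpectrum) (b : Bimorphism X Y Z) (b' : Bimorphism X Y' Z')
      (f : Hom Y Y') (φ : Hom Z Z'),
      b.IsSmashProduct ∧ b'.IsSmashProduct ∧ IsSmashMap b b' f φ ∧
      f.IsStableEquiv ∧ ¬ φ.IsStableEquiv ∧
      (∀ n, CompactSpace (X.lev n) ∧ T2Space (X.lev n) ∧ WellPointed (X.pt n)) ∧
      (∀ n, CompactSpace (Y.lev n) ∧ T2Space (Y.lev n) ∧ WellPointed (Y.pt n)) ∧
      (∀ n, CompactSpace (Y'.lev n) ∧ T2Space (Y'.lev n) ∧ WellPointed (Y'.pt n)) :=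
  ⟨sysX.spec, Y0.spec, YK.spec, P0.spec, PK.spec, bim _ _, bim _ _, inclY, inclP,
    isSmashProduct_bim, isSmashProduct_bim, isSmashMap_incl, inclY_isStableEquiv,
    inclP_not_isStableEquiv,
    fun n => ⟨inferInstance, inferInstance, wellPointed_sysX n⟩,
    fun n => ⟨inferInstance, inferInstance, wellPointed_sysY _
      (Set.singleton_subset_iff.2 zero_mem_K) n⟩,
    fun n => ⟨inferInstance, inferInstance, wellPointed_sysY _ (Set.Subset.refl K) n⟩⟩

end Pool.Agent.Results.MP_783066_gt.NotHomotopical
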